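import Pool.Agent.H211.CH.Stm

/-!
# PUI: the Laurent series solution of `f (th) = x⁻ⁿ` and the rotations `x ↦ ω x`
-/

set_option autoImplicit false

open Polynomial

namespace Pool.Agent.H161.CH211

open Pool.Agent.H211.CH

universe u

variable {K : Type u} [Field K]

/-! ### The rotations -/

/-- `x ↦ ω x` on Laurent series -/
noncomputable def rotF (ω : K) (s : LaurentSeries K) : LaurentSeries K where
  coeff k := ω ^ k * s.coeff k
  isPWO_support' := s.isPWO_support'.mono (by
    intro k hk
    rw [Function.mem_support] at hk ⊢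
    exact right_ne_zero_of_mul hk)

theorem rotF_coeff (ω : K) (s : LaurentSeries K) (k : ℤ) :
    (rotF ω s).coeff k = ω ^ k * s.coeff k := rfl

theorem rotF_mul (ω : K) (hω : ω ≠ 0) (s t : LaurentSeries K) :
    rotF ω (s * t) = rotF ω s * rotF ω t := by
  apply HahnSeries.ext
  funext k
  rw [rotF_coeff, HahnSeries.coeff_mul, HahnSeries.coeff_mul, Finset.mul_sum]
  have h : Finset.antidiagonal s.isPWO_support t.isPWO_support k =
      Finset.antidiagonal (rotF ω s).isPWO_support (rotF ω t).isPWO_support k := by
    ext ij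
    simp only [Finset.mem_antidiagonal, HahnSeries.mem_support, rotF_coeff, mul_ne_zero_iff,
      ne_eq, zpow_ne_zero _ hω, not_false_eq_true, true_and]
  rw [h]
  refine Finset.sum_congr rfl fun ij hij => ?_
  rw [Finset.mem_antidiagonal] at hij
  rw [rotF_coeff, rotF_coeff, ← hij.2.2, zpow_add₀ hω]
  ring

theorem rotF_C (ω : K) (c : K) : rotF ω (HahnSeries.C c) = HahnSeries.C c := by
  apply HahnSeries.ext
  funext k
  rw [rotF_coeff]
  by_cases hk : k = 0
  · rw [hk, zpow_zero, one_mul]
  · rw [HahnSeries.C_apply, HahnSeries.coeff_single_of_ne hk, mul_zero]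

/-- the rotation as an algebra map -/
noncomputable def rot (ω : K) (hω : ω ≠ 0) : LaurentSeries K →ₐ[K] LaurentSeries K where
  toFun := rotF ω
  map_one' := by
    have h := rotF_C ω (1 : K)
    rwa [map_one] at h
  map_mul' := rotF_mul ω hω
  map_zero' := by
    apply HahnSeries.ext
    funext k
    rw [rotF_coeff, HahnSeries.coeff_zero, mul_zero]
  map_add' s t := by
    apply HahnSeries.ext
    funext k
    rw [rotF_coeff, HahnSeries.coeff_add, HahnSeries.coeff_add, rotF_coeff, rotF_coeff, mul_add]
  commutes' c := by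
    rw [LaurentSeries.algebraMap_apply]
    exact rotF_C ω c

/-! ### The power series -/

theorem exists_u [CharZero K] (f : K[X]) (hf : f.Monic) (hn : 0 < f.natDegree) :
    ∃ u : PowerSeries K, PowerSeries.constantCoeff u = 1 ∧
      ((f.map (PowerSeries.C (R := K))).scaleRoots PowerSeries.X).eval u = 1 := by
  set F : (PowerSeries K)[X] := (f.map (PowerSeries.C (R := K))).scaleRoots PowerSeries.X with hF
  have hFm : F.Monic := (monic_scaleRoots_iff _).2 (hf.map _)
  have hFd : F.natDegree = f.natDegree := by
    rw [hF, natDegree_scaleRoots, hf.natDegree_map]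
  have hgm : (F - 1).Monic := by
    apply hFm.sub_of_left
    rw [degree_one, degree_eq_natDegree hFm.ne_zero, hFd]
    exact_mod_cast hn
  have hmap : (F - 1).map (PowerSeries.constantCoeff (R := K)) = X ^ f.natDegree - 1 := by
    have h1 : (PowerSeries.constantCoeff (R := K)) (f.map (PowerSeries.C (R := K))).leadingCoeff ≠ 0 := by
      rw [(hf.map _).leadingCoeff, map_one]
      exact one_ne_zero
    have h2 : (f.map (PowerSeries.C (R := K))).map (PowerSeries.constantCoeff (R := K)) = f := by
      rw [Polynomial.map_map]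
      have : (PowerSeries.constantCoeff (R := K)).comp (PowerSeries.C (R := K)) = RingHom.id K := by
        ext x
        simp
      rw [this, Polynomial.map_id]
    rw [Polynomial.map_sub, Polynomial.map_one, hF, map_scaleRoots _ _ _ h1, h2,
      PowerSeries.constantCoeff_X, scaleRoots_zero, hf.leadingCoeff, one_smul]
  have hev : ∀ p : (PowerSeries K)[X], ∀ a : PowerSeries K, PowerSeries.constantCoeff (p.eval a) =
      (p.map (PowerSeries.constantCoeff (R := K))).eval (PowerSeries.constantCoeff a) := by
    intro p a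
    rw [eval_map, eval₂_hom]
  have h1 : (F - 1).eval 1 ∈ (Ideal.span {PowerSeries.X} : Ideal (PowerSeries K)) := by
    rw [Ideal.mem_span_singleton, PowerSeries.X_dvd_iff, hev, hmap]
    simp
  have h2 : IsUnit (Ideal.Quotient.mk (Ideal.span {PowerSeries.X} : Ideal (PowerSeries K))
      ((F - 1).derivative.eval 1)) := by
    apply IsUnit.map
    rw [PowerSeries.isUnit_iff_constantCoeff, hev, ← derivative_map, hmap]
    rw [isUnit_iff_ne_zero, map_one, derivative_sub, derivative_one, sub_zero, derivative_X_pow,
      eval_mul, eval_pow, eval_X, one_pow, mul_one, eval_C]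
    exact Nat.cast_ne_zero.2 hn.ne'
  obtain ⟨u, hu, hu1⟩ := HenselianRing.is_henselian (I := (Ideal.span {PowerSeries.X} :
    Ideal (PowerSeries K))) (F - 1) hgm 1 h1 h2
  refine ⟨u, ?_, ?_⟩
  · rw [Ideal.mem_span_singleton, PowerSeries.X_dvd_iff, map_sub, map_one, sub_eq_zero] at hu1
    exact hu1
  · rw [IsRoot.def, eval_sub, eval_one, sub_eq_zero] at hu
    exact hu

theorem t_PUI {K : Type u} [Field K] [IsAlgClosed K] [CharZero K] : S_PUI K := by
  classical
  intro f hf hn
  obtain ⟨u, hu0, hu⟩ := exists_u f hf hn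
  set φ : PowerSeries K →+* LaurentSeries K := HahnSeries.ofPowerSeries ℤ K with hφ
  set th : LaurentSeries K := HahnSeries.single (-1 : ℤ) (1 : K) * φ u with hth
  have hco : ∀ k : ℤ, th.coeff k = (φ u).coeff (k + 1) := by
    intro k
    rw [hth, HahnSeries.coeff_single_mul, one_mul, sub_neg_eq_add]
  refine ⟨th, fun ω => if h : ω ≠ 0 then rot ω h else AlgHom.id K _, ?_, ?_, ?_, ?_⟩
  · intro k hk
    rw [hco, hφ, PowerSeries.coeff_coe, if_pos (by omega)]
  · rw [hco, hφ, PowerSeries.coeff_coe]
    simpa using hu0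
  · have hX : φ PowerSeries.X = HahnSeries.single (1 : ℤ) (1 : K) := HahnSeries.ofPowerSeries_X
    have hinv : HahnSeries.single (1 : ℤ) (1 : K) * HahnSeries.single (-1 : ℤ) (1 : K) = 1 := by
      rw [HahnSeries.single_mul_single]
      simp
    have h1 : φ u = φ PowerSeries.X * th := by
      rw [hth, hX, ← mul_assoc, hinv, one_mul]
    have h2 := scaleRoots_eval₂_mul (p := f.map (PowerSeries.C (R := K))) φ th PowerSeries.X
    rw [← h1, eval₂_hom, hu, map_one, hf.natDegree_map, eval₂_map] at h2
    have h3 : eval₂ (φ.comp (PowerSeries.C (R := K))) th f = aeval th f := by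
      have h5 : φ.comp (PowerSeries.C (R := K)) = algebraMap K (LaurentSeries K) := by
        refine RingHom.ext fun c => ?_
        rw [RingHom.comp_apply, hφ, HahnSeries.ofPowerSeries_C, LaurentSeries.algebraMap_apply]
      rw [aeval_def, h5]
    rw [h3, hX] at h2
    have h4 : HahnSeries.single (-(f.natDegree : ℤ)) (1 : K) *
        HahnSeries.single (1 : ℤ) (1 : K) ^ f.natDegree = 1 := by
      rw [HahnSeries.single_pow, HahnSeries.single_mul_single]
      simp
    calc aeval th f = (HahnSeries.single (-(f.natDegree : ℤ)) (1 : K) *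
        HahnSeries.single (1 : ℤ) (1 : K) ^ f.natDegree) * aeval th f := by rw [h4, one_mul]
      _ = HahnSeries.single (-(f.natDegree : ℤ)) (1 : K) *
        (HahnSeries.single (1 : ℤ) (1 : K) ^ f.natDegree * aeval th f) := by rw [mul_assoc]
      _ = _ := by rw [← h2, mul_one]
  · intro ω hω s k
    rw [dif_pos hω]
    rfl

end Pool.Agent.H161.CH211
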